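import Pool.Agent.Q164.ST.Stm

set_option autoImplicit false

/-! Project ST, job ASM: the assembly. -/

namespace Pool.Agent.Q164.ST

/-- The spanning trees of `G`: subgraphs on all the vertices which are trees. -/
def SpanningTree {V : Type} (G : SimpleGraph V) : Type :=
  {T : SimpleGraph V // T ≤ G ∧ T.IsTree}

/-- Two spanning trees are identified when they are isomorphic as abstract graphs. -/
def isoSetoid {V : Type} (G : SimpleGraph V) : Setoid (SpanningTree G) where
  r S T := Nonempty (S.1 ≃g T.1)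
  iseqv :=
    { refl := fun S => ⟨SimpleGraph.Iso.refl⟩
      symm := fun ⟨e⟩ => ⟨e.symm⟩
      trans := fun ⟨e⟩ ⟨e'⟩ => ⟨e.trans e'⟩ }

/-- The number of isomorphism classes of spanning trees of `G`. -/
noncomputable def numClasses {V : Type} (G : SimpleGraph V) : ℕ :=
  Nat.card (Quotient (isoSetoid G))

theorem finite_spanningTree {V : Type} [Fintype V] (G : SimpleGraph V) :
    Finite (SpanningTree G) := by
  classical
  exact inferInstanceAs (Finite {T : SimpleGraph V // T ≤ G ∧ T.IsTree})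

theorem finite_quot {V : Type} [Fintype V] (G : SimpleGraph V) :
    Finite (Quotient (isoSetoid G)) := by
  haveI := finite_spanningTree G
  exact Quotient.finite _

/-- at least two classes -/
theorem two_le_numClasses (hTWO : S_TWO) {V : Type} [Fintype V] (G : SimpleGraph V)
    (hconn : G.Connected) (hdeg3 : ∀ v, 3 ≤ (G.neighborSet v).ncard) : 2 ≤ numClasses G := by
  classical
  haveI := finite_quot G
  haveI := Fintype.ofFinite (Quotient (isoSetoid G))
  obtain ⟨T, T', h1, h2, h3, h4, h5⟩ := hTWO V G hconn hdeg3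
  let A : SpanningTree G := ⟨T, h1, h3⟩
  let B : SpanningTree G := ⟨T', h2, h4⟩
  have hne : Quotient.mk (isoSetoid G) A ≠ Quotient.mk (isoSetoid G) B := by
    intro h
    have h6 : (isoSetoid G).r A B := Quotient.exact h
    obtain ⟨e⟩ := h6
    exact h5.false e
  unfold numClasses
  rw [Nat.card_eq_fintype_card]
  exact Fintype.one_lt_card_iff.2 ⟨_, _, hne⟩

/-- the count -/
theorem count_classes (hTREE : S_TREE) (hCNT : S_CNT) {V : Type} [Fintype V] (G : SimpleGraph V)
    (d S : ℕ) (hd : 1 ≤ d) (hS : 1 ≤ S) (r : V) (K : Set V) (p : V → V) (m : V → ℕ)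
    (F : (V → ℕ) → (V → V)) (hrK : r ∈ K) (hp : IsPar r p) (hpK : ∀ v ∈ K, p v ∈ K)
    (h1 : ∀ x : V → ℕ, (∀ v, x v ≤ m v) → IsPar r (F x) ∧ tr (F x) ≤ G ∧
      (∀ v ∈ K, F x v = p v) ∧ (∀ v ∈ K, S ≤ dsz (F x) v) ∧
      ∀ v, {y : V | y ≠ r ∧ F x y = v}.ncard ≤ d)
    (h2 : ∀ x y : V → ℕ, (∀ v, x v ≤ m v) → (∀ v, y v ≤ m v) → x ≠ y →
      ∃ c, th r K (F x) c ≠ th r K (F y) c) :
    ∏ v, (m v + 1) ≤ numClasses G * (Fintype.card V * (d ^ d) ^ (Fintype.card V / S)) := by
  classical
  haveI := finite_quot G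
  haveI := Fintype.ofFinite (Quotient (isoSetoid G))
  set X : Finset (V → ℕ) := Fintype.piFinset (fun v => Finset.range (m v + 1)) with hX
  have hmem : ∀ x, x ∈ X ↔ ∀ v, x v ≤ m v := by
    intro x
    simp [hX, Fintype.mem_piFinset, Nat.lt_succ_iff]
  have hcard : X.card = ∏ v, (m v + 1) := by
    rw [hX, Fintype.card_piFinset]
    simp
  have hFinj : ∀ x ∈ X, ∀ y ∈ X, F x = F y → x = y := by
    intro x hx y hy hxy
    by_contra hne
    obtain ⟨c, hc⟩ := h2 x y ((hmem x).1 hx) ((hmem y).1 hy) hne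
    exact hc (by rw [hxy])
  let Φ : (V → ℕ) → Option (Quotient (isoSetoid G)) := fun x =>
    if h : ∀ v, x v ≤ m v then
      some (Quotient.mk (isoSetoid G) ⟨tr (F x), (h1 x h).2.1, hTREE V r (F x) (h1 x h).1⟩)
    else none
  have hfib : ∀ b ∈ X.image Φ, (X.filter (fun x => Φ x = b)).card ≤
      Fintype.card V * (d ^ d) ^ (Fintype.card V / S) := by
    intro b hb
    obtain ⟨x₀, hx₀, rfl⟩ := Finset.mem_image.1 hb
    have hx₀' := (hmem x₀).1 hx₀
    have h3 := hCNT V r K p S d (F '' (X : Set (V → ℕ))) hd hS hrK hp hpK ?_ ?_ (tr (F x₀))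
    · refine le_trans ?_ h3
      rw [← Set.ncard_coe_finset]
      refine Set.ncard_le_ncard_of_injOn F ?_ ?_ (Set.toFinite _)
      · intro x hx
        obtain ⟨hxX, hxe⟩ := Finset.mem_filter.1 (Finset.mem_coe.1 hx)
        have hx' := (hmem x).1 hxX
        refine ⟨⟨x, hxX, rfl⟩, ?_⟩
        simp only [Φ] at hxe
        rw [dif_pos hx', dif_pos hx₀'] at hxe
        exact Quotient.exact (Option.some.inj hxe)
      · intro x hx y hy hxy
        exact hFinj x (Finset.mem_filter.1 (Finset.mem_coe.1 hx)).1 y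
          (Finset.mem_filter.1 (Finset.mem_coe.1 hy)).1 hxy
    · rintro _ ⟨x, hx, rfl⟩
      have hx' := (hmem x).1 (Finset.mem_coe.1 hx)
      obtain ⟨h4, _, h5, h6, h7⟩ := h1 x hx'
      exact ⟨h4, h5, h6, h7⟩
    · rintro _ ⟨x, hx, rfl⟩ _ ⟨y, hy, rfl⟩ hne
      exact h2 x y ((hmem x).1 (Finset.mem_coe.1 hx)) ((hmem y).1 (Finset.mem_coe.1 hy))
        (fun h => hne (by rw [h]))
  have h3 : X.card ≤ (Fintype.card V * (d ^ d) ^ (Fintype.card V / S)) * (X.image Φ).card :=
    Finset.card_le_mul_card_image X _ hfib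
  have h4 : (X.image Φ).card ≤ numClasses G := by
    have h5 : X.image Φ ⊆ (Finset.univ : Finset (Quotient (isoSetoid G))).image some := by
      intro b hb
      obtain ⟨x, hx, rfl⟩ := Finset.mem_image.1 hb
      have hx' := (hmem x).1 hx
      simp only [Φ]
      rw [dif_pos hx']
      exact Finset.mem_image_of_mem _ (Finset.mem_univ _)
    refine le_trans (Finset.card_le_card h5) (le_trans Finset.card_image_le ?_)
    unfold numClasses
    rw [Nat.card_eq_fintype_card, Finset.card_univ]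
  rw [← hcard]
  calc X.card ≤ (Fintype.card V * (d ^ d) ^ (Fintype.card V / S)) * (X.image Φ).card := h3
    _ ≤ (Fintype.card V * (d ^ d) ^ (Fintype.card V / S)) * numClasses G :=
        Nat.mul_le_mul_left _ h4
    _ = _ := Nat.mul_comm _ _

theorem main (hTREE : S_TREE) (hTWO : S_TWO) (hCNT : S_CNT) (hSTAR : S_STAR) (hSEP : S_SEP)
    (hNUM : S_NUM) (hFAM : S_FAM) (d : ℕ) (hd : 3 ≤ d) :
    ∃ c : ℝ, 0 < c ∧ ∀ (V : Type) [Fintype V] (G : SimpleGraph V), G.Connected →
      (∀ v, 3 ≤ (G.neighborSet v).ncard ∧ (G.neighborSet v).ncard ≤ d) →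
      Real.exp (c * Fintype.card V) ≤ numClasses G := by
  classical
  obtain ⟨S, n₀, hS, c, hc, hmain⟩ := hNUM d (by omega)
  set N : ℕ := max n₀ (2 * S) + 1 with hN
  have hNpos : (0 : ℝ) < N := by
    rw [hN]; positivity
  have hlog : 0 < Real.log 2 := Real.log_pos (by norm_num)
  refine ⟨min c (Real.log 2 / N), lt_min hc (div_pos hlog hNpos), ?_⟩
  intro V _ G hconn hdeg
  by_cases hV : N ≤ Fintype.card V
  · -- large graphs
    have hn0 : n₀ ≤ Fintype.card V := by
      have := le_max_left n₀ (2 * S)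
      omega
    have h2S : 2 * S ≤ Fintype.card V := by
      have := le_max_right n₀ (2 * S)
      omega
    obtain ⟨A, _, hA, hAcard⟩ := hSEP V G d Finset.univ (fun v => (hdeg v).2)
    obtain ⟨T, hTG, hT, hleaf⟩ := hSTAR V G A hconn (fun v => (hdeg v).1) hA
    set L : Finset V := Finset.univ.filter (fun v => (T.neighborSet v).ncard = 1) with hL
    have hLcard : A.card ≤ L.card := by
      refine le_trans hleaf (le_of_eq ?_)
      rw [← Set.ncard_coe_finset]
      congr 1
      ext v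
      simp [hL]
    obtain ⟨I, hIL, hI, hIcard⟩ := hSEP V G d L (fun v => (hdeg v).2)
    obtain ⟨r, K, p, m, F, h1, h2, h3, h4, h5, h6, h7⟩ := hFAM V G d S I T hS hconn
      (fun v => (hdeg v).1) (fun v => (hdeg v).2) hI hTG hT
      (fun u hu => (Finset.mem_filter.1 (hIL hu)).2) h2S
    have h8 := count_classes hTREE hCNT G d S (by omega) hS r K p m F h1 h2 h3 h6 h7
    have h9 : Fintype.card V ≤ 2 * (1 + d) ^ 4 * ∑ v, m v := by
      rw [Finset.card_univ] at hAcard
      calc Fintype.card V ≤ (1 + d) ^ 2 * A.card := hAcard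
        _ ≤ (1 + d) ^ 2 * ((1 + d) ^ 2 * I.card) :=
            Nat.mul_le_mul_left _ (le_trans hLcard hIcard)
        _ ≤ (1 + d) ^ 2 * ((1 + d) ^ 2 * (2 * ∑ v, m v)) :=
            Nat.mul_le_mul_left _ (Nat.mul_le_mul_left _ h5)
        _ = 2 * (1 + d) ^ 4 * ∑ v, m v := by ring
    have h10 := hmain V m (numClasses G) hn0 h4 h9 h8
    refine le_trans (Real.exp_le_exp.2 ?_) h10
    exact mul_le_mul_of_nonneg_right (min_le_left _ _) (Nat.cast_nonneg _)
  · -- small graphs
    have h1 : 2 ≤ numClasses G := two_le_numClasses hTWO G hconn (fun v => (hdeg v).1)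
    have h2 : (Fintype.card V : ℝ) ≤ N := by
      exact_mod_cast (le_of_lt (not_le.1 hV))
    have h3 : min c (Real.log 2 / N) * Fintype.card V ≤ Real.log 2 := by
      calc min c (Real.log 2 / N) * Fintype.card V ≤ (Real.log 2 / N) * N :=
            mul_le_mul (min_le_right _ _) h2 (Nat.cast_nonneg _) (div_nonneg hlog.le hNpos.le)
        _ = Real.log 2 := by field_simp
    calc Real.exp (min c (Real.log 2 / N) * Fintype.card V) ≤ Real.exp (Real.log 2) :=
          Real.exp_le_exp.2 h3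
      _ = 2 := Real.exp_log (by norm_num)
      _ ≤ numClasses G := by exact_mod_cast h1

end Pool.Agent.Q164.ST
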