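import Pool.Agent.Q164.ST.Stm

set_option autoImplicit false

/-! Project ST, job CORE. -/

namespace Pool.Agent.Q164.ST

theorem task_CORE : S_CORE := by
  classical
  intro V _ r f I S d hf hrI hfI hch hd hS hcomp
  have hfin : ∀ s : Set V, s.Finite := fun s => Set.toFinite s
  set K : Set V := {v : V | v ∉ I ∧ S ≤ sz f I v} with hK
  have hrK : r ∈ K := by
    refine ⟨hrI, le_trans hcomp ?_⟩
    unfold sz
    refine Set.ncard_le_ncard ?_ (hfin _)
    intro y hy
    exact ⟨hy, exists_iterate hf y⟩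
  have hfK : ∀ v ∈ K, f v ∈ K := by
    intro v hv
    refine ⟨hfI v, le_trans hv.2 ?_⟩
    unfold sz
    refine Set.ncard_le_ncard ?_ (hfin _)
    rintro y ⟨hy, k, hk⟩
    exact ⟨hy, k + 1, by rw [Function.iterate_succ_apply', hk]⟩
  refine ⟨hrK, hfK, ?_⟩
  intro c
  -- the last vertex before the core
  have hlast : ∀ n : ℕ, ∀ y, dep r f y ≤ n → y ∉ K →
      ∃ x, x ∉ K ∧ f x = cl K f y ∧ ∃ k : ℕ, f^[k] y = x := by
    intro n
    induction n with
    | zero =>
      intro y hy hyK
      exact absurd (by rw [dep_eq_zero hf (Nat.le_zero.1 hy)]; exact hrK) hyK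
    | succ n ih =>
      intro y hy hyK
      have hyr : y ≠ r := fun h => hyK (by rw [h]; exact hrK)
      have h1 := dep_succ hf hyr
      rw [cl_of_not_mem hf hrK hyK]
      by_cases h2 : f y ∈ K
      · exact ⟨y, hyK, (cl_of_mem f h2).symm, 0, rfl⟩
      · obtain ⟨x, hx1, hx2, k, hk⟩ := ih (f y) (by omega) h2
        exact ⟨x, hx1, hx2, k + 1, by rw [Function.iterate_succ_apply]; exact hk⟩
  let C : Finset V := Finset.univ.filter (fun x => x ≠ r ∧ f x = c ∧ x ∉ K)
  let D : V → Finset V := fun x => Finset.univ.filter (fun y => y ∉ I ∧ ∃ k : ℕ, f^[k] y = x)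
  have hC : C.card ≤ d := by
    refine le_trans ?_ (hch c)
    rw [← Set.ncard_coe_finset]
    refine Set.ncard_le_ncard ?_ (hfin _)
    intro x hx
    have := Finset.mem_filter.1 (Finset.mem_coe.1 hx)
    exact ⟨this.2.1, this.2.2.1⟩
  have hD : ∀ x ∈ C, (D x).card ≤ S - 1 := by
    intro x hx
    have hxK : x ∉ K := (Finset.mem_filter.1 hx).2.2.2
    have h0 : (D x).card = sz f I x := by
      rw [← Set.ncard_coe_finset]
      unfold sz
      congr 1
      ext y
      simp [D]
    by_cases hxI : x ∈ I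
    · have : D x = ∅ := by
        rw [Finset.eq_empty_iff_forall_notMem]
        intro y hy
        obtain ⟨_, hy1, k, hk⟩ := Finset.mem_filter.1 hy
        cases k with
        | zero =>
          apply hy1
          have : y = x := hk
          rw [this]
          exact hxI
        | succ k =>
          rw [Function.iterate_succ_apply'] at hk
          exact hfI (f^[k] y) (by rw [hk]; exact hxI)
      rw [this]
      simp
    · have h1 : ¬ S ≤ sz f I x := fun h => hxK ⟨hxI, h⟩
      omega
  have hcov : {y : V | y ∉ I ∧ cl K f y = c} ⊆ (({c} ∪ C.biUnion D : Finset V) : Set V) := by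
    rintro y ⟨hyI, hyc⟩
    rw [Finset.mem_coe, Finset.mem_union]
    by_cases hyK : y ∈ K
    · left
      rw [cl_of_mem f hyK] at hyc
      rw [hyc]
      exact Finset.mem_singleton_self c
    · right
      obtain ⟨x, hx1, hx2, hx3⟩ := hlast _ y le_rfl hyK
      have hxr : x ≠ r := fun h => hx1 (by rw [h]; exact hrK)
      exact Finset.mem_biUnion.2 ⟨x, Finset.mem_filter.2 ⟨Finset.mem_univ _, hxr,
        hx2.trans hyc, hx1⟩, Finset.mem_filter.2 ⟨Finset.mem_univ _, hyI, hx3⟩⟩
  calc {y : V | y ∉ I ∧ cl K f y = c}.ncard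
      ≤ (({c} ∪ C.biUnion D : Finset V) : Set V).ncard := Set.ncard_le_ncard hcov (hfin _)
    _ = ({c} ∪ C.biUnion D : Finset V).card := Set.ncard_coe_finset _
    _ ≤ 1 + (C.biUnion D).card := by
        refine le_trans (Finset.card_union_le _ _) ?_
        rw [Finset.card_singleton]
    _ ≤ 1 + C.card * (S - 1) := Nat.add_le_add_left (Finset.card_biUnion_le_card_mul _ _ _ hD) _
    _ ≤ 1 + d * (S - 1) := Nat.add_le_add_left (Nat.mul_le_mul_right _ hC) _
    _ ≤ d * S := by
        obtain ⟨s, rfl⟩ : ∃ s, S = s + 1 := ⟨S - 1, by omega⟩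
        simp only [Nat.add_sub_cancel]
        nlinarith

end Pool.Agent.Q164.ST
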