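import Mathlib

set_option autoImplicit false

/-! Project ST (MP_b146e7_co): parent functions, depth, clusters; basic facts. -/

namespace Pool.Agent.Q164.ST

/-- `f` is a parent function with root `r`. -/
def IsPar {V : Type} (r : V) (f : V → V) : Prop :=
  f r = r ∧ ∃ μ : V → ℕ, ∀ v, v ≠ r → μ (f v) < μ v

/-- The graph of a parent function: its edges join `x` and `f x` for `x ≠ f x`. -/
def tr {V : Type} (f : V → V) : SimpleGraph V :=
  SimpleGraph.fromRel (fun x y => f x = y)

/-- The depth of `v`: the number of steps to the root. -/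
noncomputable def dep {V : Type} (r : V) (f : V → V) (v : V) : ℕ := sInf {k : ℕ | f^[k] v = r}

/-- The first element of `K` on the orbit `v, f v, f (f v), …`. -/
noncomputable def cl {V : Type} (K : Set V) (f : V → V) (v : V) : V :=
  f^[sInf {k : ℕ | f^[k] v ∈ K}] v

/-- The number of descendants of `v`, the vertex `v` included. -/
noncomputable def dsz {V : Type} (f : V → V) (v : V) : ℕ :=
  Set.ncard {y : V | ∃ k : ℕ, f^[k] y = v}

/-- The sum of the depths over the cluster of `c`. -/
noncomputable def th {V : Type} [Fintype V] (r : V) (K : Set V) (f : V → V) (c : V) : ℕ :=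
  ∑ y : V, Set.indicator {y : V | cl K f y = c} (dep r f) y

theorem tr_adj {V : Type} {f : V → V} {x y : V} :
    (tr f).Adj x y ↔ x ≠ y ∧ (f x = y ∨ f y = x) := by
  simp [tr, SimpleGraph.fromRel_adj]

theorem tr_adj_par {V : Type} {r : V} {f : V → V} (hf : IsPar r f) {v : V} (hv : v ≠ r) :
    (tr f).Adj v (f v) := by
  obtain ⟨_, μ, hμ⟩ := hf
  refine tr_adj.2 ⟨?_, Or.inl rfl⟩
  intro h
  have := hμ v hv
  rw [← h] at this
  exact lt_irrefl _ this

theorem ne_par {V : Type} {r : V} {f : V → V} (hf : IsPar r f) {v : V} (hv : v ≠ r) :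
    f v ≠ v := (tr_adj_par hf hv).ne'

theorem exists_iterate {V : Type} {r : V} {f : V → V} (hf : IsPar r f) (v : V) :
    ∃ k : ℕ, f^[k] v = r := by
  obtain ⟨_, μ, hμ⟩ := hf
  suffices h : ∀ n : ℕ, ∀ v, μ v ≤ n → ∃ k : ℕ, f^[k] v = r from h _ v le_rfl
  intro n
  induction n with
  | zero =>
    intro v hv
    by_cases h : v = r
    · exact ⟨0, h⟩
    · have := hμ v h
      omega
  | succ n ih =>
    intro v hv
    by_cases h : v = r
    · exact ⟨0, h⟩
    · have := hμ v h
      obtain ⟨k, hk⟩ := ih (f v) (by omega)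
      exact ⟨k + 1, by rw [Function.iterate_succ_apply]; exact hk⟩

theorem dep_root {V : Type} (r : V) (f : V → V) : dep r f r = 0 := by
  have : (0 : ℕ) ∈ {k : ℕ | f^[k] r = r} := by simp
  exact Nat.le_zero.1 (Nat.sInf_le this)

theorem dep_eq_zero {V : Type} {r : V} {f : V → V} (hf : IsPar r f) {v : V}
    (h : dep r f v = 0) : v = r := by
  have h1 : dep r f v ∈ {k : ℕ | f^[k] v = r} := Nat.sInf_mem (exists_iterate hf v)
  rw [h] at h1
  exact h1

theorem iterate_dep {V : Type} {r : V} {f : V → V} (hf : IsPar r f) (v : V) :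
    f^[dep r f v] v = r := by
  have h1 : dep r f v ∈ {k : ℕ | f^[k] v = r} := Nat.sInf_mem (exists_iterate hf v)
  exact h1

/-- The depth of a vertex other than the root is one more than that of its parent. -/
theorem dep_succ {V : Type} {r : V} {f : V → V} (hf : IsPar r f) {v : V} (hv : v ≠ r) :
    dep r f v = dep r f (f v) + 1 := by
  apply le_antisymm
  · apply Nat.sInf_le
    show f^[dep r f (f v) + 1] v = r
    rw [Function.iterate_succ_apply]
    exact iterate_dep hf (f v)
  · have h0 : dep r f v ≠ 0 := fun h => hv (dep_eq_zero hf h)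
    obtain ⟨k, hk⟩ := Nat.exists_eq_succ_of_ne_zero h0
    rw [hk]
    apply Nat.succ_le_succ
    apply Nat.sInf_le
    show f^[k] (f v) = r
    rw [← Function.iterate_succ_apply, ← hk]
    exact iterate_dep hf v

/-- A function with the properties of the depth is the depth. -/
theorem dep_unique {V : Type} {r : V} {f : V → V} (hf : IsPar r f) (h : V → ℕ)
    (h0 : h r = 0) (hs : ∀ v, v ≠ r → h v = h (f v) + 1) (v : V) : dep r f v = h v := by
  suffices H : ∀ n : ℕ, ∀ v, h v ≤ n → dep r f v = h v from H _ v le_rfl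
  intro n
  induction n with
  | zero =>
    intro v hv
    by_cases hr : v = r
    · rw [hr, dep_root, h0]
    · have := hs v hr
      omega
  | succ n ih =>
    intro v hv
    by_cases hr : v = r
    · rw [hr, dep_root, h0]
    · have := hs v hr
      rw [dep_succ hf hr, ih (f v) (by omega), this]

/-- Parent functions may be measured by their depth. -/
theorem isPar_of_height {V : Type} {r : V} {f : V → V} (hr : f r = r) (h : V → ℕ)
    (hh : ∀ v, v ≠ r → h (f v) < h v) : IsPar r f := ⟨hr, h, hh⟩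

theorem cl_of_mem {V : Type} {K : Set V} (f : V → V) {v : V} (hv : v ∈ K) : cl K f v = v := by
  have : (0 : ℕ) ∈ {k : ℕ | f^[k] v ∈ K} := by simpa using hv
  have h0 : sInf {k : ℕ | f^[k] v ∈ K} = 0 := Nat.le_zero.1 (Nat.sInf_le this)
  unfold cl
  rw [h0]
  rfl

theorem cl_mem {V : Type} {r : V} {f : V → V} (hf : IsPar r f) {K : Set V} (hr : r ∈ K)
    (v : V) : cl K f v ∈ K := by
  have hne : {k : ℕ | f^[k] v ∈ K}.Nonempty := by
    obtain ⟨k, hk⟩ := exists_iterate hf v
    exact ⟨k, by show f^[k] v ∈ K; rw [hk]; exact hr⟩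
  exact Nat.sInf_mem hne

theorem cl_of_not_mem {V : Type} {r : V} {f : V → V} (hf : IsPar r f) {K : Set V} (hr : r ∈ K)
    {v : V} (hv : v ∉ K) : cl K f v = cl K f (f v) := by
  have hne : {k : ℕ | f^[k] v ∈ K}.Nonempty := by
    obtain ⟨k, hk⟩ := exists_iterate hf v
    exact ⟨k, by show f^[k] v ∈ K; rw [hk]; exact hr⟩
  have hne' : {k : ℕ | f^[k] (f v) ∈ K}.Nonempty := by
    obtain ⟨k, hk⟩ := exists_iterate hf (f v)
    exact ⟨k, by show f^[k] (f v) ∈ K; rw [hk]; exact hr⟩
  have key : sInf {k : ℕ | f^[k] v ∈ K} = sInf {k : ℕ | f^[k] (f v) ∈ K} + 1 := by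
    apply le_antisymm
    · apply Nat.sInf_le
      show f^[sInf {k : ℕ | f^[k] (f v) ∈ K} + 1] v ∈ K
      rw [Function.iterate_succ_apply]
      exact Nat.sInf_mem hne'
    · have h1 := Nat.sInf_mem hne
      have h0 : sInf {k : ℕ | f^[k] v ∈ K} ≠ 0 := by
        intro h
        rw [h] at h1
        exact hv h1
      obtain ⟨k, hk⟩ := Nat.exists_eq_succ_of_ne_zero h0
      rw [hk] at h1 ⊢
      apply Nat.succ_le_succ
      apply Nat.sInf_le
      show f^[k] (f v) ∈ K
      rw [← Function.iterate_succ_apply]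
      exact h1
  show f^[sInf {k : ℕ | f^[k] v ∈ K}] v = f^[sInf {k : ℕ | f^[k] (f v) ∈ K}] (f v)
  rw [key, Function.iterate_succ_apply]

end Pool.Agent.Q164.ST
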