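import Pool.Agent.Q164.ST.Stm

set_option autoImplicit false

/-! Project ST, job FAM: the family of spanning trees. -/

namespace Pool.Agent.Q164.ST

theorem dep_cl_lt {V : Type} {r : V} {f : V → V} (hf : IsPar r f) {K : Set V} (hr : r ∈ K) :
    ∀ v, v ∉ K → dep r f (cl K f v) < dep r f v := by
  suffices H : ∀ n : ℕ, ∀ v, dep r f v ≤ n → v ∉ K → dep r f (cl K f v) < dep r f v from
    fun v hv => H _ v le_rfl hv
  intro n
  induction n with
  | zero =>
    intro v hv hK
    exact absurd (by rw [dep_eq_zero hf (Nat.le_zero.1 hv)]; exact hr) hK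
  | succ n ih =>
    intro v hv hK
    have hvr : v ≠ r := fun h => hK (by rw [h]; exact hr)
    have h1 := dep_succ hf hvr
    rw [cl_of_not_mem hf hr hK]
    by_cases h2 : f v ∈ K
    · rw [cl_of_mem f h2]; omega
    · have := ih (f v) (by omega) h2
      omega

theorem task_FAM : S_PARE → S_CUT → S_RANK → S_FPAR → S_MONO → S_CORE → S_FAM := by
  classical
  intro hPARE hCUT hRANK hFPAR hMONO hCORE V _ G d S I T hS hconn hdeg3 hdegd hSep hTG hT hleaf hn
  haveI : Nonempty V := hconn.nonempty
  have hfin : ∀ s : Set V, s.Finite := fun s => Set.toFinite s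
  -- neighbours of elements of I are outside I
  have hnI : ∀ u ∈ I, ∀ w, G.Adj u w → w ∉ I := by
    intro u hu w hw hwI
    exact (hSep u hu w hwI hw.ne).1 hw
  -- a neighbour belongs to one element of I only
  have hone : ∀ u ∈ I, ∀ u' ∈ I, ∀ w, G.Adj u w → G.Adj u' w → u = u' := by
    intro u hu u' hu' w h1 h2
    by_contra hne
    exact (hSep u hu u' hu' hne).2 w ⟨h1, h2⟩
  -- three neighbours, in particular two
  have htwo : ∀ v, ∃ p q, G.Adj v p ∧ G.Adj v q ∧ p ≠ q := by
    intro v
    have h1 : 1 < (G.neighborSet v).ncard := by have := hdeg3 v; omega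
    obtain ⟨p, q, hp, hq, hpq⟩ := (Set.one_lt_ncard_iff (hfin _)).1 h1
    exact ⟨p, q, hp, hq, hpq⟩
  choose p q hp hq hpq using htwo
  -- the root
  obtain ⟨r, hrI⟩ : ∃ r, r ∉ I := by
    obtain ⟨v⟩ := ‹Nonempty V›
    by_cases hv : v ∈ I
    · exact ⟨p v, hnI v hv _ (hp v)⟩
    · exact ⟨v, hv⟩
  obtain ⟨f, hf, hTf⟩ := hPARE V T r hT
  have hTadj : ∀ v, v ≠ r → T.Adj v (f v) := by
    intro v hv
    rw [hTf]
    exact tr_adj_par hf hv
  have hGadj : ∀ v, v ≠ r → G.Adj v (f v) := fun v hv => hTG (hTadj v hv)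
  have hfI : ∀ v, f v ∉ I := by
    intro v hvI
    have hvr : v ≠ r := by
      intro h
      rw [h, hf.1] at hvI
      exact hrI hvI
    have hur : f v ≠ r := fun h => hrI (h ▸ hvI)
    have h1 := hTadj v hvr
    have h2 := hTadj (f v) hur
    have h3 := hleaf (f v) hvI
    obtain ⟨a, ha⟩ := Set.ncard_eq_one.1 h3
    have h4 : v ∈ T.neighborSet (f v) := h1.symm
    have h5 : f (f v) ∈ T.neighborSet (f v) := h2
    rw [ha] at h4 h5
    have h6 : f (f v) = v := by
      rw [Set.mem_singleton_iff] at h4 h5
      exact h5.trans h4.symm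
    obtain ⟨_, μ, hμ⟩ := hf
    have h7 := hμ v hvr
    have h8 := hμ (f v) hur
    rw [h6] at h8
    omega
  have hchild : ∀ v, {y : V | y ≠ r ∧ f y = v}.ncard ≤ d := by
    intro v
    refine le_trans (Set.ncard_le_ncard ?_ (hfin _)) (hdegd v)
    rintro y ⟨hy, rfl⟩
    exact (hGadj y hy).symm
  have hd1 : 1 ≤ d := by
    have := hdeg3 r
    have := hdegd r
    omega
  -- size of the complement of I
  have hcomp : S ≤ {y : V | y ∉ I}.ncard := by
    have h1 : I.card ≤ {y : V | y ∉ I}.ncard := by
      rw [← Set.ncard_coe_finset I]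
      refine Set.ncard_le_ncard_of_injOn f (fun u _ => hfI u) ?_ (hfin _)
      intro u hu u' hu' h
      have hur : u ≠ r := fun h => hrI (h ▸ hu)
      have hur' : u' ≠ r := fun h => hrI (h ▸ hu')
      exact hone u hu u' hu' (f u) (hGadj u hur) (by rw [h]; exact hGadj u' hur')
    have h2 : I.card + {y : V | y ∉ I}.ncard = Fintype.card V := by
      have h3 : {y : V | y ∉ I} = ((Finset.univ \ I : Finset V) : Set V) := by
        ext y; simp
      rw [h3, Set.ncard_coe_finset, Finset.card_sdiff_of_subset (Finset.subset_univ I),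
        Finset.card_univ]
      have := Finset.card_le_univ I
      omega
    omega
  obtain ⟨hrK, hfK, hclus⟩ := hCORE V r f I S d hf hrI hfI hchild hd1 hS hcomp
  set K : Set V := {v : V | v ∉ I ∧ S ≤ sz f I v} with hKdef
  set κ : V → V := cl K f with hκ
  set h : V → ℕ := dep r f with hh
  obtain ⟨J₀, hJ₀⟩ := hCUT V I (fun u => κ (p u)) (fun u => κ (q u))
  set U : Finset V := I.filter (fun u => (κ (p u) = κ (q u) ∧ κ (p u) ∈ J₀) ∨
    (κ (p u) ≠ κ (q u) ∧ ¬ (κ (p u) ∈ J₀ ↔ κ (q u) ∈ J₀))) with hUdef
  have hUcard : I.card ≤ 2 * U.card := by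
    refine le_trans hJ₀ ?_
    apply Nat.mul_le_mul_left
    rw [← Set.ncard_coe_finset U]
    apply le_of_eq
    congr 1
    ext u
    simp [hUdef]
  set J : Set V := J₀ ∩ K with hJdef
  let hi : V → V := fun u => if κ (p u) = κ (q u) then (if h (p u) < h (q u) then q u else p u)
    else (if κ (p u) ∈ J₀ then p u else q u)
  let lo : V → V := fun u => if κ (p u) = κ (q u) then (if h (q u) < h (p u) then q u else p u)
    else (if κ (p u) ∈ J₀ then q u else p u)
  let W : Finset V := U.filter (fun u => κ (p u) = κ (q u) ∧ h (p u) = h (q u))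
  have hUI : U ⊆ I := Finset.filter_subset _ _
  have hWU : W ⊆ U := Finset.filter_subset _ _
  have hhi : ∀ u, hi u = p u ∨ hi u = q u := by
    intro u
    simp only [hi]
    split_ifs <;> simp
  have hlo : ∀ u, lo u = p u ∨ lo u = q u := by
    intro u
    simp only [lo]
    split_ifs <;> simp
  have hhiG : ∀ u, G.Adj u (hi u) := by
    intro u
    rcases hhi u with h1 | h1
    · rw [h1]; exact hp u
    · rw [h1]; exact hq u
  have hloG : ∀ u, G.Adj u (lo u) := by
    intro u
    rcases hlo u with h1 | h1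
    · rw [h1]; exact hp u
    · rw [h1]; exact hq u
  have hWhi : ∀ u ∈ W, hi u = p u := by
    intro u hu
    have h1 := (Finset.mem_filter.1 hu).2
    simp only [hi]
    rw [if_pos h1.1, if_neg (by rw [h1.2]; exact lt_irrefl _)]
  have hWlo : ∀ u ∈ W, lo u = p u := by
    intro u hu
    have h1 := (Finset.mem_filter.1 hu).2
    simp only [lo]
    rw [if_pos h1.1, if_neg (by rw [h1.2]; exact lt_irrefl _)]
  have hgood : Good r f h I K κ lo hi q W := by
    refine ⟨hf.1, dep_root r f, fun v hv => dep_succ hf hv, hfI, hrK, fun v hv => hv.1, hfK,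
      fun v _ => cl_mem hf hrK v, fun v hv => cl_of_mem f hv,
      fun v hv _ => cl_of_not_mem hf hrK hv, fun u hu => hnI u hu _ (hloG u),
      fun u hu => hnI u hu _ (hhiG u), fun u hu => hUI (hWU hu), ?_, ?_, ?_, ?_, ?_, ?_, ?_⟩
    · intro u hu
      rw [hWlo u hu, hWhi u hu]
    · intro u hu
      exact hnI u (hUI (hWU hu)) _ (hq u)
    · intro u hu hqK
      have h1 := (Finset.mem_filter.1 hu).2
      have h2 : κ (q u) = q u := cl_of_mem f hqK
      by_cases h3 : p u ∈ K
      · have h4 : κ (p u) = p u := cl_of_mem f h3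
        apply hpq u
        rw [← h4, ← h2, h1.1]
      · have h4 : h (κ (p u)) < h (p u) := dep_cl_lt hf hrK (p u) h3
        rw [h1.1, h2, h1.2] at h4
        exact lt_irrefl _ h4
    · intro u hu
      rw [hWhi u hu]
      exact ((Finset.mem_filter.1 hu).2.1).symm
    · intro u hu
      rw [hWhi u hu]
      exact ((Finset.mem_filter.1 hu).2.2).symm
    · intro u hu v hv huv
      exact hone u (hUI (hWU hu)) v (hUI (hWU hv)) (q u) (hq u) (by rw [huv]; exact hq v)
    · intro u hu v hv
      by_cases huv : u = v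
      · subst huv
        rw [hWlo u hu, hWhi u hu]
        exact ⟨(hpq u).symm, (hpq u).symm⟩
      · constructor
        · intro h1
          exact huv (hone u (hUI (hWU hu)) v hv (q u) (hq u) (by rw [h1]; exact hloG v))
        · intro h1
          exact huv (hone u (hUI (hWU hu)) v hv (q u) (hq u) (by rw [h1]; exact hhiG v))
  have hUhi : ∀ u ∈ U, κ (hi u) ∈ J := by
    intro u hu
    refine ⟨?_, cl_mem hf hrK _⟩
    have h1 := (Finset.mem_filter.1 hu).2
    by_cases h2 : κ (p u) = κ (q u)
    · have h3 : κ (p u) ∈ J₀ := by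
        rcases h1 with h1 | h1
        · exact h1.2
        · exact absurd h2 h1.1
      rcases hhi u with h4 | h4
      · rw [h4]; exact h3
      · rw [h4, ← h2]; exact h3
    · have h3 : ¬ (κ (p u) ∈ J₀ ↔ κ (q u) ∈ J₀) := by
        rcases h1 with h1 | h1
        · exact absurd h1.1 h2
        · exact h1.2
      simp only [hi]
      rw [if_neg h2]
      by_cases h4 : κ (p u) ∈ J₀
      · rw [if_pos h4]; exact h4
      · rw [if_neg h4]
        by_contra h5
        exact h3 ⟨fun h => absurd h h4, fun h => absurd h h5⟩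
  have hUty : ∀ u ∈ U, u ∉ W → κ (lo u) ∉ J ∨ (κ (lo u) = κ (hi u) ∧ h (lo u) < h (hi u)) := by
    intro u hu huW
    have h1 := (Finset.mem_filter.1 hu).2
    by_cases h2 : κ (p u) = κ (q u)
    · right
      have h3 : h (p u) ≠ h (q u) := by
        intro h3
        exact huW (Finset.mem_filter.2 ⟨hu, h2, h3⟩)
      simp only [hi, lo]
      rw [if_pos h2, if_pos h2]
      rcases lt_or_gt_of_ne h3 with h4 | h4
      · rw [if_neg (by omega), if_pos h4]
        exact ⟨h2, h4⟩
      · rw [if_pos h4, if_neg (by omega)]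
        exact ⟨h2.symm, h4⟩
    · left
      have h3 : ¬ (κ (p u) ∈ J₀ ↔ κ (q u) ∈ J₀) := by
        rcases h1 with h1 | h1
        · exact absurd h1.1 h2
        · exact h1.2
      intro h5
      have h6 : κ (lo u) ∈ J₀ := h5.1
      simp only [lo] at h6
      rw [if_neg h2] at h6
      by_cases h4 : κ (p u) ∈ J₀
      · rw [if_pos h4] at h6
        exact h3 ⟨fun _ => h6, fun _ => h4⟩
      · rw [if_neg h4] at h6
        exact h4 h6
  obtain ⟨ρ, hρ1, hρ2, hρ3⟩ := hRANK V U (fun u => κ (hi u)) (fun u => h (hi u))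
  let m : V → ℕ := fun v => {u : V | u ∈ U ∧ κ (hi u) = v}.ncard
  have hmle : ∀ v, m v ≤ d * S := by
    intro v
    refine le_trans ?_ (hclus v)
    refine Set.ncard_le_ncard_of_injOn hi ?_ ?_ (hfin _)
    · rintro u ⟨hu, huv⟩
      exact ⟨hnI u (hUI hu) _ (hhiG u), huv⟩
    · rintro u ⟨hu, _⟩ u' ⟨hu', _⟩ huu
      exact hone u (hUI hu) u' (hUI hu') (hi u) (hhiG u) (by rw [huu]; exact hhiG u')
  have hmcard : ∀ v, m v = (U.filter (fun u => κ (hi u) = v)).card := by
    intro v
    rw [← Set.ncard_coe_finset]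
    show {u : V | u ∈ U ∧ κ (hi u) = v}.ncard = _
    congr 1
    ext u
    simp
  have hmsum : ∑ v, m v = U.card := by
    rw [Finset.card_eq_sum_card_fiberwise (f := fun u => κ (hi u)) (t := Finset.univ)
      (fun u _ => by simp)]
    exact Finset.sum_congr rfl (fun v _ => hmcard v)
  let Y : (V → ℕ) → Set V := fun x => {u | u ∈ U ∧ ρ u < x (κ (hi u))}
  refine ⟨r, K, f, m, fun x => fY f I lo hi q W (Y x), hrK, hf, hfK, hmle,
    by rw [hmsum]; exact hUcard, ?_, ?_⟩
  · intro x _
    obtain ⟨h1, h2, h3, h4, h5⟩ := hFPAR V r f h I K κ lo hi q W hgood (Y x)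
    have hadj : ∀ y, y ≠ r → G.Adj y (fY f I lo hi q W (Y x) y) := by
      intro y hy
      unfold fY
      split_ifs with h6 h7 h8
      · exact hhiG y
      · exact hloG y
      · have h9 := h8.choose_spec
        have h10 := hq h8.choose
        rw [h9.2.2] at h10
        exact h10.symm
      · exact hGadj y hy
    refine ⟨h1, ?_, h2, fun v hv => le_trans hv.2 (h5 v hv), ?_⟩
    · intro a b hab
      obtain ⟨hne, hab⟩ := tr_adj.1 hab
      rcases hab with hab | hab
      · have har : a ≠ r := by
          intro har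
          apply hne
          rw [har] at hab ⊢
          rw [← hab]
          exact h1.1.symm
        rw [← hab]
        exact hadj a har
      · have hbr : b ≠ r := by
          intro hbr
          apply hne
          rw [hbr] at hab ⊢
          rw [← hab]
          exact h1.1
        rw [← hab]
        exact (hadj b hbr).symm
    · intro v
      refine le_trans (Set.ncard_le_ncard ?_ (hfin _)) (hdegd v)
      rintro y ⟨hy, rfl⟩
      exact (hadj y hy).symm
  · -- distinct functions
    have key : ∀ x y : V → ℕ, (∀ v, y v ≤ m v) → ∀ c, x c < y c →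
        th r K (fY f I lo hi q W (Y x)) c < th r K (fY f I lo hi q W (Y y)) c := by
      intro x y hy c hxy
      -- the element of rank x c
      obtain ⟨u, huU, huc, hρu⟩ : ∃ u ∈ U, κ (hi u) = c ∧ ρ u = x c := by
        have h1 : (U.filter (fun u => κ (hi u) = c)).image ρ = Finset.range (m c) := by
          apply Finset.eq_of_subset_of_card_le
          · intro k hk
            obtain ⟨u, hu, rfl⟩ := Finset.mem_image.1 hk
            obtain ⟨hu1, hu2⟩ := Finset.mem_filter.1 hu
            rw [Finset.mem_range]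
            have h2 := hρ1 u hu1
            simp only [hu2] at h2
            exact h2
          · rw [Finset.card_range, Finset.card_image_of_injOn, ← hmcard c]
            intro u hu u' hu' huu
            obtain ⟨hu1, hu2⟩ := Finset.mem_filter.1 hu
            obtain ⟨hu1', hu2'⟩ := Finset.mem_filter.1 hu'
            exact hρ2 u hu1 u' hu1' (by rw [hu2, hu2']) huu
        have h2 : x c ∈ Finset.range (m c) := by
          rw [Finset.mem_range]
          exact lt_of_lt_of_le hxy (hy c)
        rw [← h1] at h2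
        obtain ⟨u, hu, hux⟩ := Finset.mem_image.1 h2
        obtain ⟨hu1, hu2⟩ := Finset.mem_filter.1 hu
        exact ⟨u, hu1, hu2, hux⟩
      have hcJ : c ∈ J := by rw [← huc]; exact hUhi u huU
      refine hMONO V r f h I K κ lo hi q W hgood U J hUI hWU Set.inter_subset_right hUhi hUty c
        hcJ (Y x) (Y y) (fun u hu => hu.1) (fun u hu => hu.1) ?_ ?_ ?_
      · intro u hu huc hux
        refine ⟨hu, ?_⟩
        have := hux.2
        rw [huc] at this ⊢
        omega
      · intro u hu huc huy hux v hv hvc hvx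
        have h1 : x c ≤ ρ u := by
          by_contra h1
          apply hux
          refine ⟨hu, ?_⟩
          rw [huc]
          omega
        have h2 : ρ v < x c := by
          have := hvx.2
          rw [hvc] at this
          exact this
        exact hρ3 v hv u hu (by show κ (hi v) = κ (hi u); rw [hvc, huc]) (by omega)
      · refine ⟨u, huU, huc, ⟨huU, ?_⟩, ?_⟩
        · rw [huc, hρu]; exact hxy
        · intro h1
          have := h1.2
          rw [huc, hρu] at this
          exact lt_irrefl _ this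
    intro x y hx hy hxy
    obtain ⟨c, hc⟩ := Function.ne_iff.1 hxy
    rcases lt_or_gt_of_ne hc with h1 | h1
    · exact ⟨c, (key x y hy c h1).ne⟩
    · exact ⟨c, (key y x hx c h1).ne'⟩

end Pool.Agent.Q164.ST
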