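import Pool.Agent.Q164.ST.Stm

set_option autoImplicit false

/-! Project ST, job NUM. -/

namespace Pool.Agent.Q164.ST

theorem log_bernoulli (M : ℝ) (hM : 0 < M) (x : ℝ) (hx : 0 ≤ x) (hxM : x ≤ M) :
    x / M * Real.log (1 + M) ≤ Real.log (1 + x) := by
  have h1 : (1 + M) ^ (x / M) ≤ 1 + x / M * M :=
    rpow_one_add_le_one_add_mul_self (by linarith) (by positivity) (by
      rw [div_le_one hM]; exact hxM)
  rw [div_mul_cancel₀ _ hM.ne'] at h1
  rw [← Real.log_rpow (by linarith)]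
  exact Real.log_le_log (Real.rpow_pos_of_pos (by linarith) _) h1

theorem task_NUM : S_NUM := by
  intro d hd
  set B : ℝ := (d * Real.log d + 2) * (2 * (1 + (d : ℝ)) ^ 4 * d) with hB
  have hd0 : (0 : ℝ) < d := by exact_mod_cast hd
  have hd1 : (1 : ℝ) ≤ d := by exact_mod_cast hd
  have hlogd : 0 ≤ Real.log d := Real.log_nonneg hd1
  have hB0 : 0 < B := by positivity
  set S : ℕ := ⌈Real.exp B⌉₊ with hS
  have hSexp : Real.exp B ≤ S := Nat.le_ceil _
  have hS1 : 1 ≤ S := by
    have : (0 : ℝ) < S := lt_of_lt_of_le (Real.exp_pos B) hSexp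
    exact_mod_cast this
  have hS0 : (0 : ℝ) < S := by exact_mod_cast hS1
  refine ⟨S, 4 * S ^ 2, hS1, 1 / S, by positivity, ?_⟩
  intro V _ m C hN hm hsum hprod
  set N : ℕ := Fintype.card V with hNdef
  have hNS : (4 * (S : ℝ) ^ 2) ≤ N := by exact_mod_cast hN
  have hN0 : (0 : ℝ) < N := lt_of_lt_of_le (by positivity) hNS
  -- the constant C is positive
  have hC : 0 < C := by
    rcases Nat.eq_zero_or_pos C with h | h
    · rw [h, Nat.zero_mul] at hprod
      have : 0 < ∏ v, (m v + 1) := Finset.prod_pos (fun v _ => Nat.succ_pos _)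
      omega
    · exact h
  have hC0 : (0 : ℝ) < C := by exact_mod_cast hC
  -- the left side
  have hM0 : (0 : ℝ) < d * S := by positivity
  have h1 : ((∑ v, m v : ℕ) : ℝ) / (d * S) * Real.log (1 + d * S) ≤
      Real.log ((∏ v, (m v + 1) : ℕ) : ℝ) := by
    rw [Nat.cast_prod, Real.log_prod (fun v _ => by positivity), Nat.cast_sum, Finset.sum_div,
      Finset.sum_mul]
    apply Finset.sum_le_sum
    intro v _
    have h2 : ((m v : ℕ) : ℝ) ≤ d * S := by exact_mod_cast hm v
    have h3 := log_bernoulli (d * S) hM0 (m v) (Nat.cast_nonneg _) h2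
    rw [Nat.cast_add, Nat.cast_one, add_comm ((m v : ℕ) : ℝ) 1]
    exact h3
  have hlogS : B ≤ Real.log (1 + d * S) := by
    rw [Real.le_log_iff_exp_le (by positivity)]
    nlinarith [Real.exp_pos B]
  have h4 : (N : ℝ) ≤ 2 * (1 + (d : ℝ)) ^ 4 * ((∑ v, m v : ℕ) : ℝ) := by exact_mod_cast hsum
  have h5 : (N : ℝ) / S * (d * Real.log d + 2) ≤
      ((∑ v, m v : ℕ) : ℝ) / (d * S) * Real.log (1 + d * S) := by
    have h6 : (N : ℝ) / S * (d * Real.log d + 2) =
        (N / (2 * (1 + (d : ℝ)) ^ 4)) / (d * S) * B := by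
      rw [hB]
      field_simp
    rw [h6]
    apply mul_le_mul _ hlogS hB0.le (by positivity)
    apply div_le_div_of_nonneg_right _ hM0.le
    rw [div_le_iff₀ (by positivity)]
    linarith
  -- the right side
  have h7 : Real.log ((∏ v, (m v + 1) : ℕ) : ℝ) ≤
      Real.log C + Real.log N + (N : ℝ) / S * (d * Real.log d) := by
    have h8 : ((∏ v, (m v + 1) : ℕ) : ℝ) ≤ C * (N * ((d : ℝ) ^ d) ^ (N / S)) := by
      exact_mod_cast hprod
    have h9 : Real.log ((∏ v, (m v + 1) : ℕ) : ℝ) ≤ Real.log (C * (N * ((d : ℝ) ^ d) ^ (N / S))) := by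
      apply Real.log_le_log _ h8
      have : 0 < ∏ v, (m v + 1) := Finset.prod_pos (fun v _ => Nat.succ_pos _)
      exact_mod_cast this
    refine le_trans h9 ?_
    rw [Real.log_mul hC0.ne' (by positivity), Real.log_mul hN0.ne' (by positivity),
      Real.log_pow, Real.log_pow]
    have h10 : ((N / S : ℕ) : ℝ) ≤ (N : ℝ) / S := Nat.cast_div_le
    have h11 : ((N / S : ℕ) : ℝ) * (d * Real.log d) ≤ (N : ℝ) / S * (d * Real.log d) :=
      mul_le_mul_of_nonneg_right h10 (by positivity)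
    linarith
  have h12 : Real.log N ≤ (N : ℝ) / S := by
    have h13 : Real.log N = 2 * Real.log (Real.sqrt N) := by
      rw [Real.log_sqrt hN0.le]; ring
    have h14 : Real.log (Real.sqrt N) ≤ Real.sqrt N - 1 :=
      Real.log_le_sub_one_of_pos (Real.sqrt_pos.2 hN0)
    have h15 : 2 * (S : ℝ) ≤ Real.sqrt N := by
      apply Real.le_sqrt_of_sq_le
      nlinarith
    have h16 : Real.sqrt N * Real.sqrt N = N := Real.mul_self_sqrt hN0.le
    rw [h13, le_div_iff₀ hS0]
    nlinarith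
  have h17 : (1 / (S : ℝ)) * N ≤ Real.log C := by
    have h18 : (N : ℝ) / S * (d * Real.log d + 2) = (N : ℝ) / S * (d * Real.log d) +
      2 * ((N : ℝ) / S) := by ring
    have h19 : (1 / (S : ℝ)) * N = (N : ℝ) / S := by ring
    rw [h19]
    linarith
  rw [← Real.le_log_iff_exp_le hC0]
  exact h17

end Pool.Agent.Q164.ST
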