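import Pool.Agent.Q164.ST.Stm

set_option autoImplicit false

/-! Project ST, job SEP. -/

namespace Pool.Agent.Q164.ST

theorem task_SEP : S_SEP := by
  classical
  intro V _ G d L hdeg
  -- a subset of L of maximal size which is separated
  obtain ⟨I, hImem, hImax⟩ := Finset.exists_max_image
    (L.powerset.filter (fun I => Sep G I)) Finset.card
    ⟨∅, Finset.mem_filter.2 ⟨Finset.empty_mem_powerset L, by intro a ha; simp at ha⟩⟩
  obtain ⟨hIL, hI⟩ := Finset.mem_filter.1 hImem
  rw [Finset.mem_powerset] at hIL
  refine ⟨I, hIL, hI, ?_⟩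
  -- closed neighbourhoods
  let N : V → Finset V := fun v => Finset.univ.filter (fun w => w = v ∨ G.Adj v w)
  have hN : ∀ v, (N v).card ≤ 1 + d := by
    intro v
    have h1 : N v ⊆ {v} ∪ Finset.univ.filter (fun w => G.Adj v w) := by
      intro w hw
      simp only [N, Finset.mem_filter, Finset.mem_univ, true_and] at hw
      simp only [Finset.mem_union, Finset.mem_singleton, Finset.mem_filter, Finset.mem_univ,
        true_and]
      exact hw
    refine le_trans (Finset.card_le_card h1) (le_trans (Finset.card_union_le _ _) ?_)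
    rw [Finset.card_singleton]
    apply Nat.add_le_add_left
    refine le_trans (le_of_eq ?_) (hdeg v)
    rw [← Set.ncard_coe_finset]
    congr 1
    ext w
    simp
  have hcov : L ⊆ I.biUnion (fun a => (N a).biUnion N) := by
    intro v hv
    by_contra hcon
    have hfar : ∀ a ∈ I, v ≠ a ∧ ¬ G.Adj v a ∧ ∀ w, ¬ (G.Adj v w ∧ G.Adj a w) := by
      intro a ha
      have key : ∀ z, z ∈ N a → v ∉ N z := by
        intro z hz hvz
        exact hcon (Finset.mem_biUnion.2 ⟨a, ha, Finset.mem_biUnion.2 ⟨z, hz, hvz⟩⟩)
      have hNmem : ∀ x y, y ∈ N x ↔ y = x ∨ G.Adj x y := by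
        intro x y
        simp [N]
      refine ⟨?_, ?_, ?_⟩
      · intro h
        exact key a ((hNmem a a).2 (Or.inl rfl)) ((hNmem a v).2 (Or.inl h))
      · intro h
        exact key a ((hNmem a a).2 (Or.inl rfl)) ((hNmem a v).2 (Or.inr h.symm))
      · rintro w ⟨h1, h2⟩
        exact key w ((hNmem a w).2 (Or.inr h2)) ((hNmem w v).2 (Or.inr h1.symm))
    have hvI : v ∉ I := fun h => (hfar v h).1 rfl
    have hins : Sep G (insert v I) := by
      intro a ha b hb hab
      rcases Finset.mem_insert.1 ha with ha | ha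
      · rcases Finset.mem_insert.1 hb with hb | hb
        · exact absurd (ha.trans hb.symm) hab
        · rw [ha]
          exact ⟨(hfar b hb).2.1, (hfar b hb).2.2⟩
      · rcases Finset.mem_insert.1 hb with hb | hb
        · rw [hb]
          exact ⟨fun h => (hfar a ha).2.1 h.symm, fun w h => (hfar a ha).2.2 w ⟨h.2, h.1⟩⟩
        · exact hI a ha b hb hab
    have h1 := hImax (insert v I) (Finset.mem_filter.2 ⟨Finset.mem_powerset.2
      (Finset.insert_subset hv hIL), hins⟩)
    rw [Finset.card_insert_of_notMem hvI] at h1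
    omega
  calc L.card ≤ (I.biUnion (fun a => (N a).biUnion N)).card := Finset.card_le_card hcov
    _ ≤ I.card * (1 + d) ^ 2 := by
        apply Finset.card_biUnion_le_card_mul
        intro a _
        calc ((N a).biUnion N).card ≤ (N a).card * (1 + d) :=
              Finset.card_biUnion_le_card_mul _ _ _ (fun z _ => hN z)
          _ ≤ (1 + d) * (1 + d) := Nat.mul_le_mul_right _ (hN a)
          _ = (1 + d) ^ 2 := by ring
    _ = (1 + d) ^ 2 * I.card := Nat.mul_comm _ _

end Pool.Agent.Q164.ST
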