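import Pool.Agent.Q164.ST.Stm

set_option autoImplicit false

/-! Project ST, job STAR. -/

namespace Pool.Agent.Q164.ST

theorem task_STAR : S_STAR := by
  classical
  intro V _ G A hconn hdeg hSep
  haveI : Nonempty V := hconn.nonempty
  have hfin : ∀ s : Set V, s.Finite := fun s => Set.toFinite s
  let H : SimpleGraph V :=
    { Adj := fun x y => G.Adj x y ∧ (x ∈ A ∨ y ∈ A)
      symm := ⟨fun x y h => ⟨h.1.symm, h.2.symm⟩⟩
      loopless := ⟨fun x h => G.loopless.irrefl x h.1⟩ }
  have hHG : H ≤ G := fun x y h => h.1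
  have hHadj : ∀ x y, H.Adj x y ↔ G.Adj x y ∧ (x ∈ A ∨ y ∈ A) := fun x y => Iff.rfl
  have hac : H.IsAcyclic := by
    intro v p hp
    have hadj : H.Adj v p.snd := p.adj_snd hp.not_nil
    -- a vertex of the cycle outside A
    obtain ⟨b, hbA, hbs⟩ : ∃ b, b ∉ A ∧ b ∈ p.support := by
      by_cases hv : v ∈ A
      · refine ⟨p.snd, ?_, p.getVert_mem_support 1⟩
        intro hs
        exact (hSep v hv p.snd hs hadj.ne).1 hadj.1
      · exact ⟨v, hv, p.start_mem_support⟩
    have h2 := hp.ncard_neighborSet_toSubgraph_eq_two hbs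
    obtain ⟨x, y, hxy, hset⟩ := Set.ncard_eq_two.1 h2
    have hx : H.Adj b x := by
      have : x ∈ p.toSubgraph.neighborSet b := by rw [hset]; simp
      exact p.toSubgraph.adj_sub this
    have hy : H.Adj b y := by
      have : y ∈ p.toSubgraph.neighborSet b := by rw [hset]; simp
      exact p.toSubgraph.adj_sub this
    have hxA : x ∈ A := by
      rcases hx.2 with h | h
      · exact absurd h hbA
      · exact h
    have hyA : y ∈ A := by
      rcases hy.2 with h | h
      · exact absurd h hbA
      · exact h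
    exact (hSep x hxA y hyA hxy).2 b ⟨hx.1.symm, hy.1.symm⟩
  obtain ⟨T, hHT, hTG, hT⟩ := hconn.exists_isTree_le_of_le_of_isAcyclic hHG hac
  refine ⟨T, hTG, hT, ?_⟩
  have hdegree : ∀ v, T.degree v = (T.neighborSet v).ncard := by
    intro v
    rw [← SimpleGraph.card_neighborSet_eq_degree, Set.ncard_eq_toFinset_card', Set.toFinset_card]
  have hsum : ∑ v, (T.neighborSet v).ncard + 2 = 2 * Fintype.card V := by
    have h1 := T.sum_degrees_eq_twice_card_edges
    have h2 := hT.card_edgeFinset
    have h3 : ∑ v, (T.neighborSet v).ncard = ∑ v, T.degree v :=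
      Finset.sum_congr rfl (fun v _ => (hdegree v).symm)
    rw [h3, h1]
    omega
  have hntr : Nontrivial V := by
    obtain ⟨v⟩ := ‹Nonempty V›
    have h3 := hdeg v
    obtain ⟨w, hw⟩ : (G.neighborSet v).Nonempty := by
      rw [← Set.ncard_pos (hfin _)]
      omega
    exact ⟨v, w, hw.ne⟩
  have hpos : ∀ v, 1 ≤ (T.neighborSet v).ncard := by
    intro v
    obtain ⟨w, hw⟩ := hT.preconnected.exists_adj_of_nontrivial v
    exact (Set.ncard_pos (hfin _)).2 ⟨w, hw⟩
  have hA3 : ∀ a ∈ A, 3 ≤ (T.neighborSet a).ncard := by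
    intro a ha
    refine le_trans (hdeg a) (Set.ncard_le_ncard ?_ (hfin _))
    intro w hw
    exact hHT ⟨hw, Or.inl ha⟩
  have hpt : ∀ v, 2 + (if v ∈ A then 1 else 0) ≤
      (T.neighborSet v).ncard + (if (T.neighborSet v).ncard = 1 then 1 else 0) := by
    intro v
    have h1 := hpos v
    by_cases hv : v ∈ A
    · have := hA3 v hv
      rw [if_pos hv]
      omega
    · rw [if_neg hv]
      split_ifs <;> omega
  have hs := Finset.sum_le_sum (fun v (_ : v ∈ Finset.univ) => hpt v)
  rw [Finset.sum_add_distrib, Finset.sum_add_distrib, Finset.sum_const, Finset.card_univ,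
    ← Finset.card_filter, ← Finset.card_filter] at hs
  have hA : (Finset.univ.filter (fun v => v ∈ A)).card = A.card := by
    congr 1
    ext v
    simp
  have hL : (Finset.univ.filter (fun v => (T.neighborSet v).ncard = 1)).card =
      {v : V | (T.neighborSet v).ncard = 1}.ncard := by
    rw [← Set.ncard_coe_finset]
    congr 1
    ext v
    simp
  rw [hA, hL, smul_eq_mul] at hs
  omega

end Pool.Agent.Q164.ST
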