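import Pool.Agent.Q164.ST.Defs

set_option autoImplicit false

/-! Project ST (MP_b146e7_co): statements with paper proofs. -/

namespace Pool.Agent.Q164.ST

/-- TREE. The graph of a parent function is a tree.
Proof. Connected: every `v` is joined to `r` (induction on `μ v`, `tr_adj_par`). The map
`v ↦ s(v, f v)` from `{v // v ≠ r}` to the edge set is a bijection (injective: if
`s(v, f v) = s(w, f w)` with `v ≠ w` then `f v = w`, `f w = v`, `μ v < μ w < μ v`), so the number
of edges is `|V| - 1`; use `SimpleGraph.isTree_iff_connected_and_card`. -/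
def S_TREE : Prop := ∀ (V : Type) [Fintype V] (r : V) (f : V → V), IsPar r f → (tr f).IsTree

/-- PARE. Every tree with a chosen root comes from a parent function.
Proof. For `v ≠ r` choose a neighbour `f v` of `v` with `T.dist (f v) r + 1 = T.dist v r` (second
vertex of a shortest walk), `f r = r`; `IsPar r f` with `μ v = T.dist v r`. Then `tr f ≤ T`, both
are trees (S_TREE) so they have the same number of edges and are equal. -/
def S_PARE : Prop := ∀ (V : Type) [Fintype V] (T : SimpleGraph V) (r : V), T.IsTree →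
  ∃ f : V → V, IsPar r f ∧ T = tr f

/-- RIG. A graph isomorphism which respects the roots commutes with the parent functions.
Proof. Induction on `μ v` (`μ` the measure of `f`). For `v = r` both sides are `r'`. For `v ≠ r`,
`π v ≠ r'` and `π v`, `π (f v)` are adjacent in `tr g`: either `g (π v) = π (f v)` (done) or
`g (π (f v)) = π v`. In the second case `f v ≠ r` (else `π v = g r' = r'`), so by induction
`π (f (f v)) = g (π (f v)) = π v`, so `f (f v) = v`, against `μ (f (f v)) < μ (f v) < μ v`. -/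
def S_RIG : Prop := ∀ (V : Type) (r r' : V) (f g : V → V), IsPar r f → IsPar r' g →
  ∀ π : tr f ≃g tr g, π r = r' → ∀ v, π (f v) = g (π v)

/-- TWO. A connected graph of minimum degree at least 3 has two non-isomorphic spanning trees.
Proof. Let `T` be any spanning tree (`SimpleGraph.Connected.exists_isTree_le`), `r` a leaf of `T`,
`f` its parent function with root `r` (S_PARE). `r` has exactly one `T`-neighbour; let `x ≠ y` be
two further `G`-neighbours of `r`, so `f x ≠ r`, `f y ≠ r`, `x, y ≠ r`. The functions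
`f₁ = update f x r`, `f₂ = update f y r`, `f₁₂ = update f₁ y r` are parent functions with root
`r` (same measure up to giving `r` the value 0 and all others `μ + 1`), their trees are `≤ G`.
The degree of `v` in `tr f` is `c_f v + (if v = r then 0 else 1)` with
`c_f v = #{w ≠ r, f w = v}`. Let `Q f` be the sum of the squares of the degrees, an isomorphism
invariant. Suppose all spanning trees are isomorphic. The degree of `r` is 1 in `T`. From `T` to
`T₁` the degree of `r` grows by 1 and that of `f x` drops by 1: `3 - (2 deg (f x) - 1) = 0`,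
`deg (f x) = 2`; likewise `deg (f y) = 2`. If `f x = f y = z` then `z` has the children `x, y` and
a parent, so degree at least 3, a contradiction. So `f x ≠ f y` and from `T` to `T₁₂` the degree of
`r` grows from 1 to 3 and those of `f x`, `f y` drop from 2 to 1: the change of `Q` is
`8 - 3 - 3 = 2 ≠ 0`, a contradiction. (The number of leaves may be used in place of `Q`.) -/
def S_TWO : Prop := ∀ (V : Type) [Fintype V] (G : SimpleGraph V), G.Connected →
  (∀ v, 3 ≤ (G.neighborSet v).ncard) →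
  ∃ T T' : SimpleGraph V, T ≤ G ∧ T' ≤ G ∧ T.IsTree ∧ T'.IsTree ∧ IsEmpty (T ≃g T')

/-- the set of vertices with at least two heavy children (a vertex `y` is heavy if
`S ≤ dsz g y`) -/
def branch {V : Type} (r : V) (g : V → V) (S : ℕ) : Set V :=
  {x : V | 2 ≤ {y : V | y ≠ r ∧ g y = x ∧ S ≤ dsz g y}.ncard}

/-- HEAVY. The number of vertices with two heavy children is at most `|V| / S`.
Proof. Let `H` be the set of heavy vertices. If `x` has a heavy child then `x ∈ H` (its descendants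
contain those of the child). If `H` is empty we are done; else `r ∈ H`. Let `M ⊆ H` be the set of
the heavy vertices without heavy children, `B` the branch set. Counting the heavy vertices other
than `r` by their parents: `|H| - 1 = Σ_{x ∈ H} #heavy children ≥ 0·|M| + 2|B| + (|H| - |M| - |B|)`,
so `|B| + 1 ≤ |M|`. The descendant sets of different `x, x' ∈ M` are disjoint: a common
descendant gives `f^[k] y = x`, `f^[l] y = x'`, with `k < l` say, and then the element
`f^[l-k-1] x`... is a child of `x'` having the descendant `x`, hence heavy, against `x' ∈ M`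
(for `k = l`, `x = x'`). Each has at least `S` elements, so `|M| S ≤ |V|`. -/
def S_HEAVY : Prop := ∀ (V : Type) [Fintype V] (r : V) (g : V → V) (S : ℕ), IsPar r g → 0 < S →
  (branch r g S).ncard * S ≤ Fintype.card V

/-- the maps of the core `K` with parent function `p` into the heavy part of `g`, compatible with
the parent functions -/
def maps {V : Type} (r : V) (g p : V → V) (K : Set V) (S : ℕ) : Set (K → V) :=
  {φ | (∀ x : K, (x : V) = r → φ x = r) ∧ Function.Injective φ ∧
    (∀ x y : K, (y : V) = p x → φ y = g (φ x)) ∧ ∀ x, S ≤ dsz g (φ x)}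

/-- CODE. Proof. For every `b` fix an injection `e_b` of `{y ≠ r, p y = b}` resp. of
`{y ≠ r, g y = b}` into `Fin d` (only the second set is assumed to have at most `d` elements; the
elements of `K` in the first set are mapped by `φ` injectively into the second one with `b`
replaced by `φ b`; `p`-children of `x` in `K` are at most `d` if any `φ` exists at all). Code of
`φ`: to `b ∈ branch` with `b = φ x` attach the map `Fin d → Fin d` which sends the index of a child
`y ∈ K` of `x` to the index of the child `φ y` of `b`; to `b` not of this form attach anything.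
The code determines `φ`: by induction on the measure of `p`, `φ x` is determined for
all `x ∈ K`: for `x = r` it is `r`; for `x ≠ r` the value `b = φ (p x)` is determined, `φ x` is a
heavy child of `b` (`φ x ≠ r` by injectivity); if `b` is not in the branch set it is the only heavy
child of `b`, if `b` is in the branch set it is given by the code at `b`. So the number of `φ` is at
most the number of functions `branch → (Fin d → Fin d)`. -/
def S_CODE : Prop := ∀ (V : Type) [Fintype V] (r : V) (g p : V → V) (K : Set V) (S d : ℕ),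
  IsPar r g → IsPar r p → r ∈ K → (∀ v ∈ K, p v ∈ K) → 1 ≤ d →
  (∀ v, {y : V | y ≠ r ∧ g y = v}.ncard ≤ d) →
  (maps r g p K S).ncard ≤ (d ^ d) ^ (branch r g S).ncard

/-- THEQ. Proof. `dep r f' (ψ y) = dep r f y` (`dep_unique` for `h y = dep r f' (ψ y)`,
`ψ r = r`) and `cl K f' (ψ y) = ψ (cl K f y) = cl K f y`
(induction on the depth of `y` with `cl_of_mem`, `cl_of_not_mem`; `ψ z ∈ K ↔ z ∈ K` as `ψ` is
injective and fixes `K` pointwise). Now reindex the sum along `ψ` (`Equiv.sum_comp`). -/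
def S_THEQ : Prop := ∀ (V : Type) [Fintype V] (r : V) (f f' : V → V) (K : Set V),
  IsPar r f → IsPar r f' → r ∈ K → ∀ ψ : V ≃ V, (∀ v, ψ (f v) = f' (ψ v)) →
  (∀ v ∈ K, ψ v = v) → ∀ c : V, th r K f c = th r K f' c

/-- CNT (from S_RIG, S_HEAVY, S_CODE, S_THEQ). Proof. For `f` in the set choose
`π_f : tr f ≃g T`. For every value `z` of `π_f r` (at most `|V|` values) fix one `g` of the set
with `π_g r = z`, if there is one. For each `f` with `π_f r = z` put `ρ_f = π_f` followed by the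
inverse of `π_g`; `ρ_f r = r`, so `ρ_f (f v) = g (ρ_f v)` for all `v` (S_RIG). The restriction of
`ρ_f` to `K` lies in `maps r g p K S` (`dsz g (ρ_f x) = dsz f x` since `ρ_f` carries descendants to
descendants). If the restrictions of `ρ_f` and `ρ_{f'}` agree, then `ψ = ρ_f` followed by the
inverse of `ρ_{f'}` commutes as in S_THEQ and fixes `K`, so `th r K f c = th r K f' c` for all `c`,
so `f = f'`. So the number of `f` with `π_f r = z` is at most
`(maps r g p K S).ncard ≤ (d^d)^(branch).ncard ≤ (d^d)^(|V| / S)` (S_CODE, S_HEAVY). -/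
def S_CNT : Prop := ∀ (V : Type) [Fintype V] (r : V) (K : Set V) (p : V → V) (S d : ℕ)
  (F : Set (V → V)), 1 ≤ d → 0 < S → r ∈ K → IsPar r p → (∀ v ∈ K, p v ∈ K) →
  (∀ f ∈ F, IsPar r f ∧ (∀ v ∈ K, f v = p v) ∧ (∀ v ∈ K, S ≤ dsz f v) ∧
    ∀ v, {y : V | y ≠ r ∧ f y = v}.ncard ≤ d) →
  (∀ f ∈ F, ∀ f' ∈ F, f ≠ f' → ∃ c, th r K f c ≠ th r K f' c) →
  ∀ T : SimpleGraph V, {f | f ∈ F ∧ Nonempty (tr f ≃g T)}.ncard ≤
    Fintype.card V * (d ^ d) ^ (Fintype.card V / S)

/-- CUT. Proof. Average over all subsets `J`: for a fixed `u` the map `J ↦ symmDiff J {a u}` is an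
involution which exchanges the `J` for which the condition holds for `u` with the others; so the
condition holds for exactly half of the `J`. Sum over `u ∈ I` and exchange the sums. -/
def S_CUT : Prop := ∀ (V : Type) [Fintype V] (I : Finset V) (a b : V → V), ∃ J : Set V,
  I.card ≤ 2 * {u : V | u ∈ I ∧ ((a u = b u ∧ a u ∈ J) ∨
    (a u ≠ b u ∧ ¬ (a u ∈ J ↔ b u ∈ J)))}.ncard

/-- RANK. Proof. Let `e : V ≃ Fin n`; `ρ u` is the number of `u' ∈ U` with `k u' = k u` and
(`w u < w u'` or (`w u = w u'` and `e u' < e u`)). -/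
def S_RANK : Prop := ∀ (V : Type) [Fintype V] (U : Finset V) (k : V → V) (w : V → ℕ),
  ∃ ρ : V → ℕ, (∀ u ∈ U, ρ u < {v : V | v ∈ U ∧ k v = k u}.ncard) ∧
    (∀ u ∈ U, ∀ v ∈ U, k u = k v → ρ u = ρ v → u = v) ∧
    (∀ u ∈ U, ∀ v ∈ U, k u = k v → ρ u < ρ v → w v ≤ w u)

/-- Toggle data: `f` is the base parent function with height function `h`, `I` the toggled leaves,
`K` the core, `κ` the cluster map, `lo u` and `hi u` are the parents of the leaf `u` in the
untoggled and in the toggled state, and for `u ∈ W` the vertex `q u` is hung below `u` in the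
toggled state (and below `f (q u)` in the untoggled one). -/
structure Good {V : Type} (r : V) (f : V → V) (h : V → ℕ) (I : Finset V) (K : Set V) (κ : V → V)
    (lo hi q : V → V) (W : Finset V) : Prop where
  fr : f r = r
  h0 : h r = 0
  hs : ∀ v, v ≠ r → h v = h (f v) + 1
  fI : ∀ v, f v ∉ I
  rK : r ∈ K
  KI : ∀ v ∈ K, v ∉ I
  fK : ∀ v ∈ K, f v ∈ K
  kK : ∀ v, v ∉ I → κ v ∈ K
  kk : ∀ v ∈ K, κ v = v
  kf : ∀ v, v ∉ K → v ∉ I → κ v = κ (f v)
  loI : ∀ u ∈ I, lo u ∉ I
  hiI : ∀ u ∈ I, hi u ∉ I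
  WI : W ⊆ I
  Wlo : ∀ u ∈ W, lo u = hi u
  WqI : ∀ u ∈ W, q u ∉ I
  WqK : ∀ u ∈ W, q u ∉ K
  Wqk : ∀ u ∈ W, κ (q u) = κ (hi u)
  Wqh : ∀ u ∈ W, h (q u) = h (hi u)
  Winj : ∀ u ∈ W, ∀ v ∈ W, q u = q v → u = v
  Wne : ∀ u ∈ W, ∀ v ∈ I, q u ≠ lo v ∧ q u ≠ hi v

open Classical in
/-- The parent function with the toggles of `Y` switched on. -/
noncomputable def fY {V : Type} (f : V → V) (I : Finset V) (lo hi q : V → V) (W : Finset V)
    (Y : Set V) : V → V := fun y =>
  if y ∈ I then (if y ∈ Y then hi y else lo y)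
  else if h : ∃ u, u ∈ W ∧ u ∈ Y ∧ q u = y then h.choose else f y

/-- FPAR. Proof. Write `g = fY f I lo hi q W Y`. Values: on `I`: `hi` or `lo`; `g (q u) = u` for
`u ∈ W`, `u ∈ Y` (`Winj`); otherwise `g = f`. Measure: `μ u = 3 h (g u) + 1` for `u ∈ I`,
`μ y = 3 h y + 2` for `y = q u` with `u ∈ W ∩ Y`, `μ y = 3 h y` for the other `y`. The parents of
`u ∈ I` are outside `I` and not of the form `q u'` (`Wne`), so `μ (g u) = 3 h (g u) < μ u`; for
`y = q u` toggled, `μ (g y) = μ u = 3 h (hi u) + 1 < 3 h (q u) + 2` (as `g u` is `hi u` or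
`lo u = hi u`); for the other `y ≠ r` outside `I`, `μ (f y) ≤ 3 (h y - 1) + 2 < 3 h y`. `g = f` on
`K` (`KI`, `WqK`). The cluster map: by induction on the measure of `g`, `cl K g v = κ v` for `v ∉ I`:
if `v ∈ K` both are `v`; else `cl K g v = cl K g (g v)` (`cl_of_not_mem`) and `g v` is `f v`, or
`g v = u`, `g u = hi u` and `κ (hi u) = κ (q u)`. For `u ∈ I`, `u ∉ K`, so
`cl K g u = cl K g (g u) = κ (g u)`. Last claim: let `v ∈ K`, `y ∉ I`, `f^[k] y = v`. Then
`κ y = f^[l] y` for some `l ≤ k` (`κ = cl K f` outside `I`; or: by induction on `k` there is an `m`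
with `f^[m] (κ y) = v`, using `kf`, `kk`), and as `g = f` on `K`, `g^[m] (κ y) = v`; moreover
`κ y = cl K g y = g^[j] y` for some `j`. So `y` is counted in `dsz g v`. -/
def S_FPAR : Prop := ∀ (V : Type) [Fintype V] (r : V) (f : V → V) (h : V → ℕ) (I : Finset V)
  (K : Set V) (κ : V → V) (lo hi q : V → V) (W : Finset V), Good r f h I K κ lo hi q W →
  ∀ Y : Set V, IsPar r (fY f I lo hi q W Y) ∧ (∀ v ∈ K, fY f I lo hi q W Y v = f v) ∧
    (∀ v, v ∉ I → cl K (fY f I lo hi q W Y) v = κ v) ∧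
    (∀ u ∈ I, cl K (fY f I lo hi q W Y) u = κ (fY f I lo hi q W Y u)) ∧
    (∀ v ∈ K, {y : V | y ∉ I ∧ ∃ k : ℕ, f^[k] y = v}.ncard ≤ dsz (fY f I lo hi q W Y) v)

/-- MONO (from S_FPAR). Proof. Write `D y = dep r (fY .. Y) y`, `D' y = dep r (fY .. Y') y`; call
`q u` switched on in `Y` if `u ∈ W ∩ Y`.
(1) `h y ≤ D y` for `y ∉ I`, and `D y = h y` for `y ∈ K`: strong induction on `h y`; for
`y = q u` switched on, `D y = D (hi u) + 2`, and `hi u` is not switched on (`Wne`), so if
`hi u ≠ r`, `D (hi u) = D (f (hi u)) + 1` with `h (f (hi u)) < h (hi u) = h y`.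
(2) If `y ∉ I`, `κ y = c`, `y` is not switched on in `Y` and `h y ≤ h (hi u')` for all
`u' ∈ W ∩ Y` with `κ (hi u') = c`, then `D y = h y`: induction on `h y`; if `y ∉ K` then
`D y = D (f y) + 1`, `κ (f y) = c`, and `f y` is not switched on, since
`h (f y) < h y ≤ h (hi u') = h (q u')`.
(3) `D y ≤ D' y` for `y ∉ I` with `κ y = c`: strong induction on `h y`. If `y ∈ K` both are `h y`.
If `y = q u` is switched on in `Y` then also in `Y'` (`κ (hi u) = κ (q u) = c`) and
`D y = D (hi u) + 2`, `D' y = D' (hi u) + 2`; `hi u` is not switched on in either, so it is in `K`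
or the induction hypothesis applies to `f (hi u)`. If `y = q u` is switched on in `Y'` only:
`D y = h y` by (2) and `h y ≤ D' y` by (1). If it is switched on in neither, use `f y`.
(4) For every `y` with `cl K (fY .. Y) y = c` also `cl K (fY .. Y') y = c` and `D y ≤ D' y`: clear
from (3) for `y ∉ I`. Let `y = u ∈ I`. If `u ∉ U`: the parent is `lo u` in both. If `u ∈ U`,
`κ (hi u) ≠ c`: `κ (parent) = c` only if `u ∉ Y` and `κ (lo u) = c`; then `u ∉ W` (`Wlo`), so by the
type hypothesis `κ (lo u) ∉ J`, against `c ∈ J`, or `κ (lo u) = κ (hi u)`, a contradiction. If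
`u ∈ U`, `κ (hi u) = c`: `u ∈ Y` (then `u ∈ Y'`): the parent is `hi u` in both; `u ∉ Y'` (so
`u ∉ Y`): `lo u` in both; `u ∈ Y'`, `u ∉ Y`: if `u ∈ W`, `lo u = hi u`; else, as
`κ (lo u) = c ∈ J`, `h (lo u) < h (hi u)`, and
`D u = D (lo u) + 1 = h (lo u) + 1` by (2) (`lo u` is not switched on by `Wne`) which is
`< h (hi u) + 1 ≤ D' (hi u) + 1 = D' u`.
(5) Strict inequality: take `u` with `κ (hi u) = c`, `u ∈ Y'`, `u ∉ Y`. If `u ∈ W`:
`D (q u) = h (q u)` by (2) (not switched on in `Y` by `Winj`), and `D' (q u) = D' (hi u) + 2`. If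
`u ∉ W` and `κ (lo u) ∉ J`: `u` is not in the cluster of `c` for `Y`, it is in it for `Y'` and
`D' u > 0`. In the remaining case `D u < D' u` as in (4). Sum up. -/
def S_MONO : Prop := ∀ (V : Type) [Fintype V] (r : V) (f : V → V) (h : V → ℕ) (I : Finset V)
  (K : Set V) (κ : V → V) (lo hi q : V → V) (W : Finset V), Good r f h I K κ lo hi q W →
  ∀ (U : Finset V) (J : Set V), U ⊆ I → W ⊆ U → J ⊆ K → (∀ u ∈ U, κ (hi u) ∈ J) →
    (∀ u ∈ U, u ∉ W → κ (lo u) ∉ J ∨ (κ (lo u) = κ (hi u) ∧ h (lo u) < h (hi u))) →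
    ∀ c ∈ J, ∀ Y Y' : Set V, (∀ u ∈ Y, u ∈ U) → (∀ u ∈ Y', u ∈ U) →
    (∀ u ∈ U, κ (hi u) = c → u ∈ Y → u ∈ Y') →
    (∀ u ∈ U, κ (hi u) = c → u ∈ Y' → u ∉ Y → ∀ v ∈ U, κ (hi v) = c → v ∈ Y →
      h (hi u) ≤ h (hi v)) →
    (∃ u ∈ U, κ (hi u) = c ∧ u ∈ Y' ∧ u ∉ Y) →
    th r K (fY f I lo hi q W Y) c < th r K (fY f I lo hi q W Y') c

/-- A set of vertices with pairwise disjoint closed neighbourhoods. -/
def Sep {V : Type} (G : SimpleGraph V) (A : Finset V) : Prop :=
  ∀ a ∈ A, ∀ b ∈ A, a ≠ b → ¬ G.Adj a b ∧ ∀ w, ¬ (G.Adj a w ∧ G.Adj b w)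

/-- STAR. Proof. Let `H` be the graph of all edges of `G` with an end in `A`. Every edge of `H` has
an end of degree one in `H` (its end outside `A`: two neighbours in `A` are excluded by `Sep`), so
`H` is acyclic (every vertex of a cycle has two neighbours on it), and by
`SimpleGraph.Connected.exists_isTree_le_of_le_of_isAcyclic` there is a spanning tree `T` with
`H ≤ T ≤ G`. The degrees of `a ∈ A` in `T` are those in `G`, at least 3. The sum of the degrees of
`T` is `2 |V| - 2`, all degrees are at least 1 (`|V| ≥ 4`), so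
`#leaves = 2 + Σ_{deg v ≥ 2} (deg v - 2) ≥ 2 + |A|`. -/
def S_STAR : Prop := ∀ (V : Type) [Fintype V] (G : SimpleGraph V) (A : Finset V), G.Connected →
  (∀ v, 3 ≤ (G.neighborSet v).ncard) → Sep G A →
  ∃ T : SimpleGraph V, T ≤ G ∧ T.IsTree ∧ A.card ≤ {v : V | (T.neighborSet v).ncard = 1}.ncard

/-- SEP. Proof. Take `I ⊆ L` with `Sep G I` of maximal cardinality. Every `v ∈ L` is within
distance 2 of some `a ∈ I`, that is in the union over `z ∈ N[a]` of `N[z]`, which has at most
`(1 + d)^2` elements. -/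
def S_SEP : Prop := ∀ (V : Type) [Fintype V] (G : SimpleGraph V) (d : ℕ) (L : Finset V),
  (∀ v, (G.neighborSet v).ncard ≤ d) →
  ∃ I : Finset V, I ⊆ L ∧ Sep G I ∧ L.card ≤ (1 + d) ^ 2 * I.card

/-- the number of descendants outside `I` -/
noncomputable def sz {V : Type} (f : V → V) (I : Finset V) (v : V) : ℕ :=
  {y : V | y ∉ I ∧ ∃ k : ℕ, f^[k] y = v}.ncard

/-- CORE. Proof. `r ∈ K`: all `y ∉ I` are descendants of `r`. If `v ∈ K` the descendants of
`v` are descendants of `f v`. The cluster of `c ∉ K` is empty (`cl_mem`). The cluster of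
`c ∈ K` is contained in `{c}` together with the sets `{y | y ∉ I, ∃ k, f^[k] y = x}` for the
children `x` of `c` (`x ≠ r`, `f x = c`, at most `d` of them) with `x ∉ K` (induction along the
orbit: the last vertex before `c`, or `cl_of_not_mem`); for such `x`, if `x ∉ I` the set has at
most `S - 1` elements, if `x ∈ I` it is empty (`f^[k] y = x` with `k ≥ 1` is impossible by `f v ∉ I`,
and `k = 0` gives `y = x ∈ I`). Total `≤ 1 + d (S - 1) ≤ d S`. -/
def S_CORE : Prop := ∀ (V : Type) [Fintype V] (r : V) (f : V → V) (I : Finset V) (S d : ℕ),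
  IsPar r f → r ∉ I → (∀ v, f v ∉ I) → (∀ v, {y : V | y ≠ r ∧ f y = v}.ncard ≤ d) → 1 ≤ d →
  1 ≤ S → S ≤ {y : V | y ∉ I}.ncard →
  r ∈ {v : V | v ∉ I ∧ S ≤ sz f I v} ∧ (∀ v ∈ {v : V | v ∉ I ∧ S ≤ sz f I v},
    f v ∈ {v : V | v ∉ I ∧ S ≤ sz f I v}) ∧
  ∀ c, {y : V | y ∉ I ∧ cl {v : V | v ∉ I ∧ S ≤ sz f I v} f y = c}.ncard ≤ d * S

/-- NUM. Proof. `1 + m ≥ (1 + M)^(m/M)` for real `0 ≤ m ≤ M` (Bernoulli,
`Real.rpow_one_add_le_one_add_mul_self` or concavity of log), with `M = d S`. So with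
`N = |V|` and `Σ m ≥ N / (2 (1+d)^4)`:
`log C ≥ (N / (2 (1+d)^4 d S)) log (1 + d S) - log N - (N / S) log (d^d)`. Choose `S` so large that
`log (1 + d S) / (2 (1+d)^4 d) ≥ d log d + 2`, then `log C ≥ 2 N / S - log N ≥ N / S` for
`N ≥ n₀`. Take `c = 1 / S`. Note `C > 0` follows from the hypothesis, since the product is
positive. -/
def S_NUM : Prop := ∀ d : ℕ, 1 ≤ d → ∃ S n₀ : ℕ, 1 ≤ S ∧ ∃ c : ℝ, 0 < c ∧
  ∀ (V : Type) [Fintype V] (m : V → ℕ) (C : ℕ), n₀ ≤ Fintype.card V → (∀ v, m v ≤ d * S) →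
    Fintype.card V ≤ 2 * (1 + d) ^ 4 * ∑ v, m v →
    ∏ v, (m v + 1) ≤ C * (Fintype.card V * (d ^ d) ^ (Fintype.card V / S)) →
    Real.exp (c * Fintype.card V) ≤ C

/-- FAM (from S_PARE, S_CUT, S_RANK, S_FPAR, S_MONO, S_CORE). The family of spanning trees. -/
def S_FAM : Prop := ∀ (V : Type) [Fintype V] (G : SimpleGraph V) (d S : ℕ) (I : Finset V)
  (T : SimpleGraph V), 1 ≤ S → G.Connected → (∀ v, 3 ≤ (G.neighborSet v).ncard) →
  (∀ v, (G.neighborSet v).ncard ≤ d) → Sep G I → T ≤ G → T.IsTree →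
  (∀ u ∈ I, (T.neighborSet u).ncard = 1) → 2 * S ≤ Fintype.card V →
  ∃ (r : V) (K : Set V) (p : V → V) (m : V → ℕ) (F : (V → ℕ) → (V → V)),
    r ∈ K ∧ IsPar r p ∧ (∀ v ∈ K, p v ∈ K) ∧ (∀ v, m v ≤ d * S) ∧ I.card ≤ 2 * ∑ v, m v ∧
    (∀ x : V → ℕ, (∀ v, x v ≤ m v) → IsPar r (F x) ∧ tr (F x) ≤ G ∧ (∀ v ∈ K, F x v = p v) ∧
      (∀ v ∈ K, S ≤ dsz (F x) v) ∧ ∀ v, {y : V | y ≠ r ∧ F x y = v}.ncard ≤ d) ∧
    ∀ x y : V → ℕ, (∀ v, x v ≤ m v) → (∀ v, y v ≤ m v) → x ≠ y →
      ∃ c, th r K (F x) c ≠ th r K (F y) c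

end Pool.Agent.Q164.ST
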